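import Mathlib

set_option autoImplicit false

/-!
# Values of `lcm(1,...,n)` over the denominator of `H_n`

`a(n) = lcm(1,...,n) / q_n`, where `q_n` is the denominator of the harmonic number `H_n`.
No `a(n)` is divisible by `81 = 3^4`, and no `a(n)` is divisible by `125 = 5^3`.  In particular the
odd numbers `81` and `125` (and all their odd multiples) are never attained, so it is not true that
every odd positive integer is a value of `a`.

Proof: `H_n = H_{⌊n/p⌋} / p + (a p-integral number)`, so once the numerator of `H_m` is prime to `p`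
for all `m` with `p^k ≤ m < p^(k+1)`, the exact power of `p` in the denominator of `H_n` is at least
`p^(j-k)` for all `n` with `p^j ≤ n < p^(j+1)`, `j ≥ k`, while `p^j` is the exact power of `p` in
`lcm(1,...,n)`.  For `p = 3` one can take `k = 3`, for `p = 5` one can take `k = 2`.
-/

namespace Pool.Agent.Results.MP_2b19eb_nt.PowersNotAttained

open Finset

/-- The harmonic number `H_n = ∑_{k=1}^n 1/k`. -/
def H (n : ℕ) : ℚ := ∑ k ∈ Icc 1 n, (1 : ℚ) / k

/-- The least common multiple of `1, ..., n`. -/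
def L (n : ℕ) : ℕ := (Icc 1 n).lcm id

/-- `a(n) = L_n / q_n`, where `q_n` is the denominator of `H_n` in lowest terms. -/
def a (n : ℕ) : ℕ := L n / (H n).den

lemma H_succ (n : ℕ) : H (n + 1) = H n + 1 / ((n : ℚ) + 1) := by
  unfold H
  rw [Finset.sum_Icc_succ_top (by omega)]
  push_cast
  ring

lemma L_pos (n : ℕ) : 0 < L n := by
  unfold L
  apply Nat.pos_of_ne_zero
  intro h
  rw [Finset.lcm_eq_zero_iff] at h
  obtain ⟨x, hx, hx0⟩ := h
  simp only [id] at hx0
  have := (Finset.mem_Icc.1 hx).1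
  omega

lemma L_succ (n : ℕ) : L (n + 1) = Nat.lcm (L n) (n + 1) := by
  unfold L
  have : Icc 1 (n + 1) = insert (n + 1) (Icc 1 n) := by
    ext x; simp only [mem_Icc, mem_insert]; omega
  rw [this, Finset.lcm_insert]
  simp only [id]
  rw [lcm_comm]
  rfl

/-- `L_n H_n` is an integer. -/
lemma den_dvd (n : ℕ) : (H n).den ∣ L n := by
  have h : ∃ z : ℤ, (L n : ℚ) * H n = z := by
    refine ⟨∑ k ∈ Icc 1 n, ((L n / k : ℕ) : ℤ), ?_⟩
    unfold H
    rw [Finset.mul_sum, Int.cast_sum]
    apply Finset.sum_congr rfl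
    intro k hk
    have hk1 := (Finset.mem_Icc.1 hk).1
    have hd : k ∣ L n := by
      have := Finset.dvd_lcm (f := id) hk
      simpa [L] using this
    have hk0 : (k : ℚ) ≠ 0 := by
      have : k ≠ 0 := by omega
      exact_mod_cast this
    rw [Int.cast_natCast, Nat.cast_div hd hk0]
    ring
  obtain ⟨z, hz⟩ := h
  have h1 : ((L n : ℤ) * (H n).num : ℤ) = z * (H n).den := by
    have h2 : (H n) * (H n).den = (H n).num := Rat.mul_den_eq_num (H n)
    have : ((L n : ℚ) * (H n).num) = z * (H n).den := by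
      rw [← h2, ← hz]; ring
    exact_mod_cast this
  have h3 : ((H n).den : ℤ) ∣ (L n : ℤ) * (H n).num := ⟨z, by rw [h1]; ring⟩
  have h4 : IsCoprime ((H n).den : ℤ) (H n).num := by
    have := (H n).reduced
    rw [Int.isCoprime_iff_gcd_eq_one]
    rw [Int.gcd_comm]
    exact this
  exact_mod_cast h4.dvd_of_dvd_mul_right h3

lemma log_L (p : ℕ) [hp : Fact p.Prime] (n : ℕ) : (L n).factorization p ≤ Nat.log p n := by
  induction n with
  | zero => simp [L]
  | succ n ih =>
    rw [L_succ, Nat.factorization_lcm (L_pos n).ne' (by omega)]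
    rw [Finsupp.sup_apply]
    apply sup_le
    · exact ih.trans (Nat.log_mono_right (by omega))
    · rw [Nat.factorization_def _ hp.out]
      exact padicValNat_le_nat_log _

/-- splitting off the multiples of `p` -/
lemma H_split (p : ℕ) [hp : Fact p.Prime] (n : ℕ) :
    padicNorm p (H n - H (n / p) / p) ≤ 1 := by
  have hp0 : (p : ℚ) ≠ 0 := by exact_mod_cast hp.out.ne_zero
  induction n with
  | zero => simp [H]
  | succ n ih =>
    by_cases hd : p ∣ n + 1
    · have h1 : (n + 1) / p = n / p + 1 := Nat.succ_div_of_dvd hd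
      obtain ⟨c, hc⟩ := hd
      have hc' : (n + 1) / p = c := by rw [hc]; exact Nat.mul_div_cancel_left c hp.out.pos
      have h2 : n / p + 1 = c := by omega
      rw [h1, H_succ, H_succ]
      have h3 : ((n / p : ℕ) : ℚ) + 1 = c := by exact_mod_cast h2
      have h4 : (n : ℚ) + 1 = p * c := by exact_mod_cast hc
      have hc0 : (c : ℚ) ≠ 0 := by
        intro h
        have : c = 0 := by exact_mod_cast h
        rw [this] at hc
        omega
      have : H n + 1 / ((n : ℚ) + 1) - (H (n / p) + 1 / (((n / p : ℕ) : ℚ) + 1)) / p =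
          H n - H (n / p) / p := by
        rw [h3, h4]
        field_simp
        ring
      rw [this]
      exact ih
    · have h1 : (n + 1) / p = n / p := Nat.succ_div_of_not_dvd hd
      rw [h1, H_succ]
      have : H n + 1 / ((n : ℚ) + 1) - H (n / p) / p = (H n - H (n / p) / p) + 1 / ((n : ℚ) + 1) := by
        ring
      rw [this]
      refine (padicNorm.nonarchimedean (p := p)).trans (max_le ih ?_)
      rw [padicNorm.div, padicNorm.one]
      have h5 : padicNorm p ((n : ℚ) + 1) = 1 := by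
        have := (padicNorm.nat_eq_one_iff (p := p) (n + 1)).2 hd
        exact_mod_cast this
      rw [h5]
      norm_num

lemma norm_step (p : ℕ) [hp : Fact p.Prime] (n : ℕ) (h : 1 ≤ padicNorm p (H (n / p))) :
    padicNorm p (H n) = p * padicNorm p (H (n / p)) := by
  have hp1 : (1 : ℚ) < p := by exact_mod_cast hp.out.one_lt
  have h1 : padicNorm p (H (n / p) / p) = p * padicNorm p (H (n / p)) := by
    rw [padicNorm.div, padicNorm.padicNorm_p_of_prime]
    field_simp
  have h2 := H_split p n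
  have h3 : H n = (H n - H (n / p) / p) + H (n / p) / p := by ring
  have h4 : 1 < padicNorm p (H (n / p) / p) := by
    rw [h1]
    nlinarith
  rw [h3, padicNorm.add_eq_max_of_ne (ne_of_lt (h2.trans_lt h4)), max_eq_right (h2.trans h4.le), h1]

lemma norm_lower (p : ℕ) [hp : Fact p.Prime] (k : ℕ)
    (hb : ∀ n ∈ Ico (p ^ k) (p ^ (k + 1)), ¬ (p : ℤ) ∣ (H n).num) (j : ℕ) :
    ∀ n, p ^ (k + j) ≤ n → n < p ^ (k + j + 1) → (p : ℚ) ^ j ≤ padicNorm p (H n) := by
  induction j with
  | zero =>
    intro n h1 h2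
    have h3 := hb n (Finset.mem_Ico.2 ⟨h1, h2⟩)
    rw [pow_zero]
    have h4 : H n = (H n).num / (H n).den := (Rat.num_div_den (H n)).symm
    rw [h4, padicNorm.div]
    have h5 : padicNorm p ((H n).num : ℚ) = 1 := (padicNorm.int_eq_one_iff _).2 h3
    rw [h5]
    have h6 : padicNorm p ((H n).den : ℚ) ≤ 1 := padicNorm.of_nat _
    have h7 : 0 < padicNorm p ((H n).den : ℚ) := by
      apply lt_of_le_of_ne (padicNorm.nonneg _)
      exact (padicNorm.nonzero (by exact_mod_cast (H n).den_nz)).symm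
    rw [le_div_iff₀ h7]
    linarith
  | succ j ih =>
    intro n h1 h2
    have hp0 := hp.out.pos
    have h3 : p ^ (k + j) ≤ n / p := by
      rw [Nat.le_div_iff_mul_le hp0, ← pow_succ]
      exact h1
    have h4 : n / p < p ^ (k + j + 1) := by
      rw [Nat.div_lt_iff_lt_mul hp0, ← pow_succ]
      exact h2
    have h5 := ih (n / p) h3 h4
    have hp1 : (1 : ℚ) ≤ p := by exact_mod_cast hp.out.one_lt.le
    have h6 : 1 ≤ padicNorm p (H (n / p)) := (one_le_pow₀ hp1).trans h5
    rw [norm_step p n h6, pow_succ]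
    nlinarith

lemma pow_dvd_den (p : ℕ) [hp : Fact p.Prime] (q : ℚ) (j : ℕ) (h : (p : ℚ) ^ j ≤ padicNorm p q) :
    p ^ j ∣ q.den := by
  have hq : q = q.num / q.den := (Rat.num_div_den q).symm
  have h7 : 0 < padicNorm p (q.den : ℚ) := by
    apply lt_of_le_of_ne (padicNorm.nonneg _)
    exact (padicNorm.nonzero (by exact_mod_cast q.den_nz)).symm
  have h1 : (p : ℚ) ^ j * padicNorm p (q.den : ℚ) ≤ 1 := by
    have h2 : padicNorm p q * padicNorm p (q.den : ℚ) = padicNorm p (q.num : ℚ) := by
      conv_lhs => rw [hq, padicNorm.div]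
      simp only [Rat.num_div_den]
      field_simp
    have h3 : padicNorm p (q.num : ℚ) ≤ 1 := padicNorm.of_int _
    nlinarith
  have hp0 : (0 : ℚ) < p := by exact_mod_cast hp.out.pos
  have h4 : padicNorm p ((q.den : ℤ) : ℚ) ≤ (p : ℚ) ^ (-(j : ℤ)) := by
    rw [zpow_neg, zpow_natCast, ← one_div, le_div_iff₀ (by positivity)]
    rw [mul_comm]
    exact_mod_cast h1
  have h5 := (padicNorm.dvd_iff_norm_le (p := p) (n := j) (z := (q.den : ℤ))).2 h4
  exact_mod_cast h5

theorem main (p : ℕ) [hp : Fact p.Prime] (k : ℕ)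
    (hb : ∀ n ∈ Ico (p ^ k) (p ^ (k + 1)), ¬ (p : ℤ) ∣ (H n).num) (n : ℕ) :
    ¬ p ^ (k + 1) ∣ a n := by
  intro hdvd
  have hL : a n * (H n).den = L n := Nat.div_mul_cancel (den_dvd n)
  -- in all cases a power of `p` larger than `n` divides `L n`
  have key : p ^ (Nat.log p n + 1) ∣ L n := by
    rcases lt_or_ge (Nat.log p n) k with h | h
    · have h1 : p ^ (Nat.log p n + 1) ∣ p ^ (k + 1) := pow_dvd_pow p (by omega)
      exact (h1.trans hdvd).trans ⟨_, hL.symm⟩
    · obtain ⟨j, hj⟩ := Nat.exists_eq_add_of_le h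
      have hn0 : n ≠ 0 := by
        rintro rfl
        simp only [Nat.log_zero_right] at h hj
        obtain rfl : k = 0 := by omega
        have : a 0 = 1 := by
          unfold a L H
          simp
        rw [this] at hdvd
        have := Nat.le_of_dvd one_pos hdvd
        have := hp.out.one_lt
        simp at hdvd
        omega
      have h2 : p ^ (k + j) ≤ n := by
        rw [← hj]
        exact Nat.pow_log_le_self p hn0
      have h3 : n < p ^ (k + j + 1) := by
        rw [← hj]
        exact Nat.lt_pow_succ_log_self hp.out.one_lt n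
      have h4 := pow_dvd_den p (H n) j (norm_lower p k hb j n h2 h3)
      have h5 : p ^ (k + 1) * p ^ j ∣ a n * (H n).den := mul_dvd_mul hdvd h4
      rw [hL, ← pow_add] at h5
      have : k + 1 + j = Nat.log p n + 1 := by omega
      rwa [this] at h5
  have h1 := (Nat.Prime.pow_dvd_iff_le_factorization hp.out (L_pos n).ne').1 key
  have h2 := log_L p n
  omega

lemma base3 : ∀ n ∈ Ico (3 ^ 3) (3 ^ (3 + 1)), ¬ ((3 : ℕ) : ℤ) ∣ (H n).num := by
  decide +kernel

lemma base5 : ∀ n ∈ Ico (5 ^ 2) (5 ^ (2 + 1)), ¬ ((5 : ℕ) : ℤ) ∣ (H n).num := by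
  decide +kernel

/-- For all `n`: the denominator of `H_n` divides `L_n`, and `L_n / q_n` is divisible neither by `81`
nor by `125`.  So it is not true that every odd positive integer is of the form `L_n / q_n` with
`n ≥ 1`. -/
theorem result : (∀ n : ℕ, 1 ≤ n → (H n).den ∣ L n ∧ ¬ 81 ∣ a n ∧ ¬ 125 ∣ a n) ∧
    ¬ ∀ m : ℕ, Odd m → ∃ n : ℕ, 1 ≤ n ∧ a n = m := by
  have : Fact (Nat.Prime 3) := ⟨by norm_num⟩
  have : Fact (Nat.Prime 5) := ⟨by norm_num⟩
  have h3 : ∀ n, ¬ 81 ∣ a n := fun n => by simpa using main 3 3 base3 n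
  have h5 : ∀ n, ¬ 125 ∣ a n := fun n => by simpa using main 5 2 base5 n
  refine ⟨fun n _ => ⟨den_dvd n, h3 n, h5 n⟩, fun h => ?_⟩
  obtain ⟨n, _, hn⟩ := h 81 (by decide)
  exact h3 n (hn ▸ dvd_refl _)

end Pool.Agent.Results.MP_2b19eb_nt.PowersNotAttained
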